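import Pool.Agent.helper81.DH.SpecF

/-!
# Project d2: (MP_5823cb_al): FIN, the end of the stage theorem (helper81)
-/

set_option autoImplicit false

open Filter Topology MeasureTheory
open scoped commutatorElement

namespace Pool.Agent.helper90.DH

open Pool.Agent.helper64.D2

theorem FIN_sum {q : ℕ} (Y : ℕ → ℝ → ℝ) (h : ∀ i < q, ContDiff ℝ 2 (Y i)) :
    ContDiff ℝ 2 (fun x => ∑ k ∈ Finset.Ico 0 q, Y k x) ∧
    ∀ x, d2 (fun x => ∑ k ∈ Finset.Ico 0 q, Y k x) x = ∑ k ∈ Finset.range q, d2 (Y k) x := by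
  have h' : ∀ i ∈ Finset.range q, ContDiff ℝ 2 (Y i) := fun i hi => h i (Finset.mem_range.1 hi)
  rw [← Finset.range_eq_Ico]
  refine ⟨ContDiff.sum h', fun x => ?_⟩
  have e1 : deriv (fun x => ∑ k ∈ Finset.range q, Y k x) = fun x => ∑ k ∈ Finset.range q, deriv (Y k) x := by
    funext z
    exact deriv_fun_sum fun i hi => (h' i hi).differentiable (by norm_num) z
  unfold d2
  rw [e1]
  refine deriv_fun_sum fun i hi => ?_
  have h2 : ContDiff ℝ 1 (deriv (Y i)) := by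
    have h3 : ContDiff ℝ (1 + 1) (Y i) := by
      have h4 := h' i hi
      norm_num
      exact h4
    exact (contDiff_succ_iff_deriv.1 h3).2.2
  exact h2.differentiable (by norm_num) x

theorem FIN (hYGEN : YGEN_stmt) (hBDD : BDD_stmt) (hRES : RES_stmt) (hCID : CID_stmt) (hFST : FST_stmt)
    (hRAT : RAT_stmt) (hSZC : SZC_stmt) (hFVB : FVB_stmt) (hFML : FML_stmt) (hFLD : FLD_stmt)
    (hFSP : FSP_stmt) (hFCH : FCH_stmt) (hFNU : FNU_stmt) : FIN_stmt := by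
  intro κ B hκ hB
  obtain ⟨K1, hK1, hYG⟩ := hYGEN κ hκ
  obtain ⟨K2, hK2, hBDD⟩ := hBDD
  obtain ⟨K3, hK3, hRES⟩ := hRES
  obtain ⟨K4, hK4, hCID⟩ := hCID
  obtain ⟨K5, hK5, hFST⟩ := hFST
  obtain ⟨K, hK⟩ : ∃ K, K = K1 + K2 + K3 + K4 + K5 := ⟨_, rfl⟩
  obtain ⟨n0, hnum⟩ := hFNU K B (by linarith) hB
  refine ⟨n0, fun n hn c G0 Z y p p' N σ w Gc Qc Rc Yc L hMH hsN hNσ hy hYH hyZ hEs hmod hWH hsum hGc hQc hRc
    hFLW hYc hload => ?_⟩
  obtain ⟨m1, m2, m3, m4, m5, m6, m7, m8, m9, m10, m11, m12, m13⟩ := hnum n hn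
  obtain ⟨hsz1, hsz2, hsz3, hsz4, -⟩ := hSZC
  obtain ⟨hM1, hM2, hM3, hM4, hM5, hM6, hM7⟩ := hMH
  have hYH0 := hYH
  obtain ⟨hY1, hY2, hY3, hY4, hY5, hY6, -, -, -⟩ := hYH0
  -- notation
  obtain ⟨q, hq⟩ : ∃ q : ℕ, q = qn n := ⟨_, rfl⟩
  obtain ⟨s0, hs0⟩ : ∃ s0 : ℕ, s0 = s0n n := ⟨_, rfl⟩
  obtain ⟨A, hA⟩ : ∃ A : ℝ, A = 5 / 2 ^ n := ⟨_, rfl⟩
  obtain ⟨γ, hγ⟩ : ∃ γ : ℝ, γ = 1 / ((qn n : ℝ) * 2 ^ (3 * n)) := ⟨_, rfl⟩
  obtain ⟨d, hd⟩ : ∃ d : ℝ, d = 1 / (qn n : ℝ) ^ 2 := ⟨_, rfl⟩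
  rw [← hγ] at hGc m4 m7 m8 m9 m10 m11
  rw [← hd] at hFLW m4
  rw [← hA] at hy hyZ hmod hFLW hYc m4 m5 m7 m8 m9 m12
  rw [← hs0] at hsN hYH hEs hWH hsum hYc hload m1 m2 m10 hY4 hY2 hY3 hY5
  rw [← hq] at hWH hsum hGc hQc hRc hFLW hYc hload m3 m4 m5 m6 m7 m8 m9
  have hqn : q = qn n := hq
  rw [← hq] at hγ hd
  have hq1 : (1 : ℝ) ≤ q := by exact_mod_cast m3
  have hq0 : (0 : ℝ) < q := by linarith
  have hA0 : 0 < A := by rw [hA]; positivity
  have hA1 : A ≤ 1 := by linarith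
  have hγ0 : 0 < γ := by rw [hγ]; positivity
  have hd0 : 0 < d := by rw [hd]; positivity
  have hB0 : 0 < B := by linarith
  have hε0 : 0 ≤ A * B := by positivity
  have hKK : ∀ t : ℝ, 0 ≤ t → K1 * t ≤ K * t ∧ K2 * t ≤ K * t ∧ K3 * t ≤ K * t ∧ K4 * t ≤ K * t ∧ K5 * t ≤ K * t := by
    intro t ht
    rw [hK]
    refine ⟨?_, ?_, ?_, ?_, ?_⟩ <;> exact mul_le_mul_of_nonneg_right (by linarith) ht
  have hKpos : 0 < K := by rw [hK]; linarith
  have e0 : 0 ≤ A * B + q * γ := by positivity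
  have e0' : 0 ≤ A * B + q * γ + q * d := by positivity
  -- small numbers
  have hs0pos : (0 : ℝ) < 2 ^ s0 := by positivity
  have hs1024 : (1024 : ℝ) ≤ 2 ^ s0 := by
    calc (1024 : ℝ) = 2 ^ 10 := by norm_num
      _ ≤ 2 ^ s0 := pow_le_pow_right₀ (by norm_num) m1
  have hδ : (1 : ℝ) / 2 ^ s0 ≤ 1 / 1024 := one_div_le_one_div_of_le (by norm_num) hs1024
  have hδ0 : (0 : ℝ) < 1 / 2 ^ s0 := by positivity
  have hδ4 : (4 : ℝ) / 2 ^ s0 = 4 * (1 / 2 ^ s0) := by ring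
  -- the mollification scale
  obtain ⟨h, hh⟩ : ∃ h : ℝ, h = 1 / 2 ^ (σ + s0 + 2 * N) := ⟨_, rfl⟩
  have h2s : (1 : ℝ) ≤ 2 ^ s0 := one_le_pow₀ (by norm_num)
  have hh0 : 0 < h := by rw [hh]; positivity
  have hhle : ∀ m : ℕ, m ≤ σ + s0 + 2 * N → h ≤ 1 / 2 ^ m := by
    intro m hm
    rw [hh]
    exact one_div_le_one_div_of_le (by positivity) (pow_le_pow_right₀ (by norm_num) hm)
  have hhs0 : h ≤ 1 / 2 ^ s0 := hhle s0 (by omega)
  have hhσ : h ≤ 1 / 2 ^ σ := hhle σ (by omega)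
  have hhN : h ≤ 1 / 2 ^ N := hhle N (by omega)
  have hh2N : h ≤ 1 / 2 ^ (2 * N) := hhle (2 * N) (by omega)
  -- the functions
  obtain ⟨v, hv⟩ : ∃ v : ℕ → ℝ → ℝ, v = fun i => vf q s0 N (w i) y := ⟨_, rfl⟩
  have hvi : ∀ i, vf q s0 N (w i) y = v i := fun i => by rw [hv]
  obtain ⟨Y, hYdef⟩ : ∃ Y : ℕ → ℝ → ℝ, Y = fun i => A2 (fun x => A * mol κ h (v i) x) := ⟨_, rfl⟩
  have hYi : ∀ i, Y i = A2 (fun x => A * mol κ h (v i) x) := fun i => by rw [hYdef]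
  have hFVi : ∀ i, BM (v i) ∧ BM y ∧ BM (Es s0 y) ∧
      ∀ x, x ∉ Set.Icc (p - 1 / 2 ^ s0 - 1 / 2 ^ s0) (p' + 1 / 2 ^ s0 + 1 / 2 ^ s0) → v i x = 0 := by
    intro i
    rw [← hvi i]
    exact hFVB q s0 N (w i) y (p - 1 / 2 ^ s0) (p' + 1 / 2 ^ s0) hsN m1 hY1 (by linarith) (by linarith) hY5
  have hBMy : BM y := (hFVi 0).2.1
  have hYG' : ∀ i < q, ContDiff ℝ 2 (Y i) ∧
      (∀ x, x ∉ Set.Icc (p - 1 / 2 ^ s0 - 4 / 2 ^ s0) (p' + 1 / 2 ^ s0 + 4 / 2 ^ s0) → Y i x = 0) ∧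
      ∀ x, d2 (Y i) x = A * mol κ h (v i) x ∧ |A * mol κ h (v i) x| ≤ A * B / q ∧
        |deriv (Y i) x| ≤ K1 * A / (q * 2 ^ s0) ∧ |Y i x| ≤ K1 * A * B / (q * 2 ^ (2 * s0)) ∧
        ∀ x', |A * mol κ h (v i) x - A * mol κ h (v i) x'| ≤ K1 * A * B / (q * h) * |x - x'| := by
    intro i hi
    have h1 := (hYG q s0 N N (p - 1 / 2 ^ s0) (p' + 1 / 2 ^ s0) A B h y (w i) m3 m1 hsN le_rfl hYH (hWH i hi)
      hA0 hA1 hB hh0 hhs0).1
    rw [hvi i, ← hYi i] at h1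
    exact h1
  obtain ⟨L2, hL2⟩ : ∃ L2 : ℝ, L2 = max L (K1 * A * B / (q * h)) := ⟨_, rfl⟩
  have hd' : ∀ t : ℝ, 1 ≤ t → K1 * A * B / (q * t) ≤ d := by
    intro t ht
    rw [hd, div_le_div_iff₀ (by positivity) (by positivity)]
    have h1 : K1 * (A * B * q) ≤ K * (A * B * q) := (hKK _ (by positivity)).1
    have h2 : K1 * A * B * q ≤ 1 := by nlinarith [h1, m5]
    calc K1 * A * B * (q : ℝ) ^ 2 = (K1 * A * B * q) * q := by ring
      _ ≤ 1 * q := mul_le_mul_of_nonneg_right h2 hq0.le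
      _ ≤ 1 * (q * t) := by nlinarith
  have hFLWY : FLW q Y (A * B) d L2 := by
    intro k hk
    obtain ⟨g1, g2, g3⟩ := hYG' k hk
    refine ⟨g1, fun x hx => g2 x fun hx' => hx ?_, fun x => ?_⟩
    · exact ⟨by linarith [hx'.1], by linarith [hx'.2]⟩
    · obtain ⟨f1, f2, f3, f4, f5⟩ := g3 x
      refine ⟨by rw [f1]; exact f2, f3.trans ?_, f4.trans ?_, fun x' => ?_⟩
      · refine le_trans ?_ (hd' _ h2s)
        apply div_le_div_of_nonneg_right _ (by positivity)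
        have h1 : 0 < K1 * A := by positivity
        nlinarith
      · exact hd' _ (one_le_pow₀ (by norm_num))
      · rw [f1, (g3 x').1]
        refine (f5 x').trans ?_
        apply mul_le_mul_of_nonneg_right _ (abs_nonneg _)
        rw [hL2]
        exact le_max_right _ _
  have hFLWc : FLW q Yc (A * B) d L2 := by
    intro k hk
    obtain ⟨g1, g2, g3⟩ := hFLW k hk
    refine ⟨g1, g2, fun x => ?_⟩
    obtain ⟨f1, f2, f3, f4⟩ := g3 x
    refine ⟨f1, f2, f3, fun x' => (f4 x').trans ?_⟩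
    apply mul_le_mul_of_nonneg_right _ (abs_nonneg _)
    rw [hL2]
    exact le_max_left _ _
  -- distance to the current flows
  obtain ⟨e, he⟩ : ∃ e : ℝ, e = 2 / ((q : ℝ) ^ 2 * 2 ^ σ) := ⟨_, rfl⟩
  have hdist : ∀ k < q, ∀ x, |Y k x - Yc k x| ≤ e := by
    intro k hk x
    have h1 := hYc h hh0 hh2N k hk x
    rw [hvi k, ← hYi k, abs_sub_comm] at h1
    refine h1.trans ?_
    rw [he]
    apply div_le_div_of_nonneg_right (by norm_num) (by positivity)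
  -- the final maps
  obtain ⟨Q, R, hQ, hR, hszQR, -⟩ := hBDD q Y Gc (A * B) d L2 γ m3 hFLWY hε0 hγ0.le
    (by linarith [(hKK _ e0).2.1, mul_le_mul_of_nonneg_left (show A * B + q * γ ≤ A * B + q * γ + q * d by
      have : 0 ≤ (q : ℝ) * d := by positivity
      linarith) (show 0 ≤ K by linarith)]) hGc
  have hcmp : ∀ i < q, ∀ x, |ev (Cm Gc Q R i) x - ev (Cm Gc Qc Rc i) x| ≤ 1 / 2 ^ σ := by
    intro i hi x
    have h1 := (hFST q Yc Y Gc Qc Q Rc R (A * B) d L2 γ e m3 hFLWc hFLWY hε0 hγ0.le hd0.le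
      (by linarith [(hKK _ e0').2.2.2.2]) hGc hQc hQ hRc hR hdist i hi x).2
    refine h1.trans ?_
    rw [he]
    have h2 : K5 * q * (2 / ((q : ℝ) ^ 2 * 2 ^ σ)) = (K5 * 2 / q) * (1 / 2 ^ σ) := by
      field_simp
    rw [h2]
    have h3 : K5 * 2 / q ≤ 1 := by
      rw [div_le_one hq0]
      have := (hKK 2 (by norm_num)).2.2.2.2
      linarith
    have h4 : (0 : ℝ) ≤ 1 / 2 ^ σ := by positivity
    nlinarith
  have m4' : K * (A * B + q * γ) ≤ 1 := by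
    have h1 : K * (A * B + q * γ) ≤ K * (A * B + q * γ + q * d) := by
      apply mul_le_mul_of_nonneg_left _ (by linarith)
      have : 0 ≤ (q : ℝ) * d := by positivity
      linarith
    linarith
  -- the load
  have hR0 : ∀ x, |d2 (ev (R 0)) x| ≤ 172 / 1000 * (1 / 2 ^ n) := by
    intro x
    have h1 := hRES q Y Gc Q R (A * B) d L2 γ m3 hFLWY hε0 hγ0.le (by linarith [(hKK _ e0).2.2.1]) hGc hQ hR x
    have h2 : ∀ t : ℝ, |t| ≤ 1 → |∑ i ∈ Finset.range q, v i (ev (Cm Gc Q R i) x - h * t)| ≤ 1 / 32 + 1 / 1000 := by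
      intro t ht
      have h3 := hload (fun i => Cm Gc Q R i) hcmp (fun _ => -(h * t)) (fun i => by
        rw [abs_neg, abs_mul, abs_of_pos hh0]
        have : h * |t| ≤ h * 1 := mul_le_mul_of_nonneg_left ht hh0.le
        linarith) x
      have h4 : |∑ i ∈ Finset.range q, Es s0 y (ev (Cm Gc Q R i) x + -(h * t)) / q| ≤ 1 / 1000 := by
        refine (Finset.abs_sum_le_sum_abs _ _).trans ?_
        calc ∑ i ∈ Finset.range q, |Es s0 y (ev (Cm Gc Q R i) x + -(h * t)) / q|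
            ≤ ∑ i ∈ Finset.range q, (1 / 1000) / (q : ℝ) := by
              refine Finset.sum_le_sum fun i _ => ?_
              rw [abs_div, abs_of_pos hq0]
              exact div_le_div_of_nonneg_right (hEs _) hq0.le
          _ = 1 / 1000 := by
              rw [Finset.sum_const, Finset.card_range, nsmul_eq_mul]
              field_simp
      have h5 : ∑ i ∈ Finset.range q, v i (ev (Cm Gc Q R i) x - h * t)
          = ∑ i ∈ Finset.range q, (vf q s0 N (w i) y (ev (Cm Gc Q R i) x + -(h * t)) -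
              Es s0 y (ev (Cm Gc Q R i) x + -(h * t)) / q)
            + ∑ i ∈ Finset.range q, Es s0 y (ev (Cm Gc Q R i) x + -(h * t)) / q := by
        rw [← Finset.sum_add_distrib]
        refine Finset.sum_congr rfl fun i _ => ?_
        rw [hvi i, sub_add_cancel, sub_eq_add_neg]
      rw [h5]
      exact (abs_add_le _ _).trans (add_le_add h3 h4)
    have h6 := (hFLD κ hκ (Finset.range q) v (fun i _ => (hFVi i).1) h hh0).2
      (fun i => ev (Cm Gc Q R i) x) (1 / 32 + 1 / 1000) h2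
    have h7 : ∑ i ∈ Finset.range q, d2 (Y i) (ev (Cm Gc Q R i) x)
        = A * ∑ i ∈ Finset.range q, mol κ h (v i) (ev (Cm Gc Q R i) x) := by
      rw [Finset.mul_sum]
      refine Finset.sum_congr rfl fun i hi => ?_
      exact ((hYG' i (Finset.mem_range.1 hi)).2.2 _).1
    have h8 : |∑ i ∈ Finset.range q, d2 (Y i) (ev (Cm Gc Q R i) x)| ≤ A * (1 / 32 + 1 / 1000) := by
      rw [h7, abs_mul, abs_of_pos hA0]
      exact mul_le_mul_of_nonneg_left h6 hA0.le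
    have h9 : K3 * ((A * B + q * γ) ^ 2 + q * γ) ≤ 1 / 100 * (1 / 2 ^ n) :=
      ((hKK _ (by positivity)).2.2.1).trans m7
    have h10 : A * (1 / 32 + 1 / 1000) = (16125 / 100000) * (1 / 2 ^ n) := by rw [hA]; ring
    have h11 : |d2 (ev (R 0)) x| ≤ |d2 (ev (R 0)) x - ∑ i ∈ Finset.range q, d2 (Y i) (ev (Cm Gc Q R i) x)|
        + |∑ i ∈ Finset.range q, d2 (Y i) (ev (Cm Gc Q R i) x)| := by
      have := abs_add_le (d2 (ev (R 0)) x - ∑ i ∈ Finset.range q, d2 (Y i) (ev (Cm Gc Q R i) x))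
        (∑ i ∈ Finset.range q, d2 (Y i) (ev (Cm Gc Q R i) x))
      rwa [sub_add_cancel] at this
    have h12 : (0 : ℝ) < 1 / 2 ^ n := by positivity
    linarith
  -- the factor H
  obtain ⟨C, hC⟩ : ∃ C : ℝ → ℝ, C = fun x => ∑ k ∈ Finset.Ico 0 q, Y k x := ⟨_, rfl⟩
  have hCs := FIN_sum (q := q) Y fun i hi => (hYG' i hi).1
  rw [← hC] at hCs
  have hC2 : ∀ x, d2 C x = A * mol κ h y x := by
    intro x
    rw [hCs.2 x]
    have h1 := (hFLD κ hκ (Finset.range q) v (fun i _ => (hFVi i).1) h hh0).1 x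
    have h2 : (fun z => ∑ i ∈ Finset.range q, v i z) = y := by
      funext z
      rw [← hsum z]
      exact Finset.sum_congr rfl fun i _ => by rw [hvi i]
    rw [h2] at h1
    rw [← h1, Finset.mul_sum]
    exact Finset.sum_congr rfl fun i hi => ((hYG' i (Finset.mem_range.1 hi)).2.2 x).1
  have hrepQ : Rep (Q 0) C := by rw [hC]; exact hQ 0 (Nat.zero_le q)
  have hZC : ∀ x, |d2 Z x - d2 C x| ≤ 2 * A / 2 ^ (2 * n) := by
    intro x
    have h1 := (hFML κ hκ y hBMy h hh0).2.1 x (d2 Z x / A) (2 / 2 ^ (2 * n)) (fun t ht => by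
      have h2 := hyZ (x - h * t)
      have h3 := hmod (x - h * t) x (by
        rw [show x - h * t - x = -(h * t) by ring, abs_neg, abs_mul, abs_of_pos hh0]
        have : h * |t| ≤ h * 1 := mul_le_mul_of_nonneg_left ht hh0.le
        linarith)
      have h4 : |d2 Z (x - h * t) / A - d2 Z x / A| ≤ 1 / 2 ^ (2 * n) := by
        rw [← sub_div, abs_div, abs_of_pos hA0, div_le_iff₀ hA0]
        calc |d2 Z (x - h * t) - d2 Z x| ≤ A / 2 ^ (2 * n) := h3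
          _ = 1 / 2 ^ (2 * n) * A := by ring
      calc |y (x - h * t) - d2 Z x / A| = |(y (x - h * t) - d2 Z (x - h * t) / A)
            + (d2 Z (x - h * t) / A - d2 Z x / A)| := by congr 1; ring
        _ ≤ |y (x - h * t) - d2 Z (x - h * t) / A| + |d2 Z (x - h * t) / A - d2 Z x / A| := abs_add_le _ _
        _ ≤ 1 / 2 ^ (2 * n) + 1 / 2 ^ (2 * n) := add_le_add h2 h4
        _ = 2 / 2 ^ (2 * n) := by ring)
    rw [hC2 x, abs_sub_comm]
    have h5 : A * mol κ h y x - d2 Z x = A * (mol κ h y x - d2 Z x / A) := by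
      field_simp
    rw [h5, abs_mul, abs_of_pos hA0]
    calc A * |mol κ h y x - d2 Z x / A| ≤ A * (2 / 2 ^ (2 * n)) := mul_le_mul_of_nonneg_left h1 hA0.le
      _ = 2 * A / 2 ^ (2 * n) := by ring
  have h4n : (4 : ℝ) / 2 ^ n ≤ 1 / 16 := by
    have h1 : (4 : ℝ) / 2 ^ n ≤ A := by
      rw [hA]
      exact div_le_div_of_nonneg_right (by norm_num) (by positivity)
    linarith
  have h2n : 2 * A / 2 ^ (2 * n) ≤ 1 / 16 := by
    have h1 : (1 : ℝ) ≤ 2 ^ (2 * n) := one_le_pow₀ (by norm_num)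
    have h2 : 2 * A / 2 ^ (2 * n) ≤ 2 * A := div_le_self (by linarith) h1
    linarith
  obtain ⟨XH, hXH1, hXH2, hXH3, hXH4, -, -⟩ := hRAT G0 (Q 0) Z C (p - 1 / 2 ^ s0 - 4 / 2 ^ s0)
    (p' + 1 / 2 ^ s0 + 4 / 2 ^ s0) (1 / 8) hM1 hrepQ hM2 hCs.1 (fun x hx => ⟨hM3 x fun hx' => hx
      ⟨by linarith [hx'.1], by linarith [hx'.2]⟩, by
        rw [hC]
        exact Finset.sum_eq_zero fun k hk => (hYG' k (Finset.mem_Ico.1 hk).2).2.1 x hx⟩)
    (fun x => ⟨(hM7 x).1.trans (by linarith), by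
      have h1 := hZC x
      have h2 := (hM7 x).1
      have h3 : |d2 C x| ≤ |d2 Z x| + |d2 Z x - d2 C x| := by
        have h4 := abs_sub (d2 Z x) (d2 Z x - d2 C x)
        rwa [sub_sub_cancel] at h4
      linarith⟩) (by linarith) (by linarith) (by linarith) le_rfl
  have hSzH : Sz (G0 * (Q 0)⁻¹) (20 / 2 ^ (3 * n)) := by
    intro x
    rw [(hsz1 _ _ hXH1).2.2.2 x]
    refine (hXH4 _ hZC x).trans (le_of_eq ?_)
    rw [hA, show 3 * n = n + 2 * n by ring, pow_add]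
    field_simp
    norm_num
  -- the chain
  obtain ⟨V, u, v', hV0, hVq, hVs, hVz⟩ := hCID q Y Gc Q R (A * B) d L2 γ m3 hFLWY hε0 hγ0.le
    (by linarith [(hKK _ e0).2.2.2.1]) hGc hQ hR
  have h20 : (0 : ℝ) < 20 / 2 ^ (3 * n) := by positivity
  have hK4e : K4 * (A * B + q * γ) ≤ K * (A * B + q * γ) := (hKK _ e0).2.2.2.1
  have hmono : ∀ (g : DD) (a b : ℝ), Sz g a → a ≤ b → Sz g b := fun g a b hg hab x => (hg x).trans hab
  obtain ⟨R', u', w', f1, f2, f3, f4, f5⟩ := hFCH q V u v' (G0 * (Q 0)⁻¹) (K * (A * B + q * γ) + 20 / 2 ^ (3 * n))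
    (by positivity) m9 hVs (fun i hi => by
      obtain ⟨g1, g2, g3⟩ := hVz i hi
      exact ⟨hmono _ _ _ g1 (by linarith), hmono _ _ _ g2 (by linarith), hmono _ _ _ g3 (by linarith)⟩)
    (hmono _ _ _ hSzH (by
      have : 0 ≤ K * (A * B + q * γ) := by positivity
      linarith))
  rw [hV0] at f1
  rw [hVq] at f2
  refine ⟨R', u', w', fun x => ev (G0 * (Q 0)⁻¹ * R 0) x - x, ?_, f3, ?_, ?_, ?_, ?_, ?_, ?_⟩
  · rw [f1]
    group
  · intro j
    obtain ⟨g1, g2, g3⟩ := f4 j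
    exact ⟨hmono _ _ _ g1 m8, hmono _ _ _ g2 m8, hmono _ _ _ g3 m8⟩
  · intro j hj
    rw [← hqn] at hj
    exact f5 j hj
  · rw [← hqn, f2]
    intro x
    ring
  · exact (ev_contDiff _).sub contDiff_id
  · intro x
    have h1 : Rep (G0 * (Q 0)⁻¹ * R 0) (fun x => ev (G0 * (Q 0)⁻¹ * R 0) x - x) := by
      intro x
      ring
    rw [← (hsz1 _ _ h1).2.2.2 x]
    have h3 : (20 : ℝ) / 2 ^ (3 * n) ≤ 1 / 8 := by
      have : 0 ≤ K * (A * B + q * γ) := by positivity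
      linarith
    have h5 : (172 : ℝ) / 1000 * (1 / 2 ^ n) ≤ 1 / 8 := by
      have h6 : (1 : ℝ) / 2 ^ n ≤ 1 := by
        rw [div_le_one (by positivity)]
        exact one_le_pow₀ (by norm_num)
      have h7 : (4 : ℝ) * (1 / 2 ^ n) = 4 / 2 ^ n := by ring
      linarith
    exact (hsz3 _ _ _ _ hSzH hR0 h3 h5 x).trans m13
  · intro x hx
    have h1 : x ∉ Set.Icc (p - 1 / 2 ^ s0 - 4 / 2 ^ s0 - γ) (p' + 1 / 2 ^ s0 + 4 / 2 ^ s0 + γ) := by
      intro hx'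
      apply hx
      have h2 : (1 : ℝ) / 2 ^ s0 + 4 / 2 ^ s0 = 5 / 2 ^ s0 := by ring
      exact ⟨by linarith [hx'.1], by linarith [hx'.2]⟩
    have h3 := hFSP q Y Gc Q R (p - 1 / 2 ^ s0 - 4 / 2 ^ s0) (p' + 1 / 2 ^ s0 + 4 / 2 ^ s0) γ (by linarith)
      hγ0.le hQ hR (fun k hk => (hYG' k hk).2.1) hGc 0 (Nat.zero_le q) x h1
    have h4 : ev (G0 * (Q 0)⁻¹) x = x := by
      rw [hXH1 x, hXH3 x fun hx' => h1 ⟨by linarith [hx'.1], by linarith [hx'.2]⟩, add_zero]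
    show ev (G0 * (Q 0)⁻¹ * R 0) x - x = 0
    rw [ev_mul, h3, h4, sub_self]

end Pool.Agent.helper90.DH
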