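import Pool.Agent.helper81.DH.ZCH

/-!
# Module ZAD of project d2: (MP_5823cb_al): admissible sequences in the slots `kz` (helper81)
-/

set_option autoImplicit false

open Filter Topology
open scoped commutatorElement
open Pool.Agent.helper64.D2

namespace M5Z

theorem ZAD_qn_mono {a b : ℕ} (h : a ≤ b) : qn a ≤ qn b := by
  unfold qn rn
  exact Nat.pow_le_pow_left (Nat.pow_le_pow_right (by norm_num) (Nat.div_le_div_right h)) 4

theorem ZAD_qn_le (n : ℕ) : qn n ≤ 2 ^ (n / 100) := by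
  unfold qn rn
  rw [← pow_mul]
  exact Nat.pow_le_pow_right (by norm_num) (by omega)

theorem ZAD_kz_le (n1 i : ℕ) : kz n1 (i + 1) ≤ 3 + (i + 1) * (qn (n1 + 2 * i) + 1) := by
  induction i with
  | zero =>
    show kz n1 0 + qn (n1 + 2 * 0) + 1 ≤ _
    have h : kz n1 0 = 3 := rfl
    rw [h]
    ring_nf
    omega
  | succ i ih =>
    have h1 : kz n1 (i + 1 + 1) = kz n1 (i + 1) + qn (n1 + 2 * (i + 1)) + 1 := rfl
    have h2 : qn (n1 + 2 * i) ≤ qn (n1 + 2 * (i + 1)) := ZAD_qn_mono (by omega)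
    have h3 : (i + 1) * (qn (n1 + 2 * i) + 1) ≤ (i + 1) * (qn (n1 + 2 * (i + 1)) + 1) :=
      Nat.mul_le_mul_left _ (by omega)
    rw [h1]
    have h4 : (i + 1 + 1) * (qn (n1 + 2 * (i + 1)) + 1)
      = (i + 1) * (qn (n1 + 2 * (i + 1)) + 1) + (qn (n1 + 2 * (i + 1)) + 1) := by ring
    omega

theorem ZAD_bound (n1 i k : ℕ) (hk : k < kz n1 (i + 1)) :
    (k : ℝ) ^ 3 * (1 / 2 ^ ((n1 + 2 * i) / 3)) ^ 2 ≤ 1000 * (((i + 1 : ℕ) : ℝ) ^ 3 / 2 ^ (i + 1)) := by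
  have h1 : k ≤ 5 * (i + 1) * 2 ^ ((n1 + 2 * i) / 100) := by
    have h2 := ZAD_kz_le n1 i
    have h3 := ZAD_qn_le (n1 + 2 * i)
    have h4 : 1 ≤ 2 ^ ((n1 + 2 * i) / 100) := Nat.one_le_two_pow
    have h5 : (i + 1) * (qn (n1 + 2 * i) + 1) ≤ (i + 1) * (2 * 2 ^ ((n1 + 2 * i) / 100)) :=
      Nat.mul_le_mul_left _ (by omega)
    have h6 : i + 1 ≤ (i + 1) * 2 ^ ((n1 + 2 * i) / 100) := Nat.le_mul_of_pos_right _ (by omega)
    have h7 : 5 * (i + 1) * 2 ^ ((n1 + 2 * i) / 100)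
      = (i + 1) * (2 * 2 ^ ((n1 + 2 * i) / 100)) + 3 * ((i + 1) * 2 ^ ((n1 + 2 * i) / 100)) := by ring
    rw [h7]
    omega
  have h2 : (k : ℝ) ≤ 5 * ((i + 1 : ℕ) : ℝ) * 2 ^ ((n1 + 2 * i) / 100) := by
    exact_mod_cast h1
  have h3 : (k : ℝ) ^ 3 ≤ (5 * ((i + 1 : ℕ) : ℝ) * 2 ^ ((n1 + 2 * i) / 100)) ^ 3 :=
    pow_le_pow_left₀ (by positivity) h2 3
  have h4 : (2 : ℝ) ^ (3 * ((n1 + 2 * i) / 100)) * 2 ^ (i + 1) ≤ 8 * 2 ^ (2 * ((n1 + 2 * i) / 3)) := by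
    rw [← pow_add, show (8 : ℝ) = 2 ^ 3 by norm_num, ← pow_add]
    exact pow_le_pow_right₀ (by norm_num) (by omega)
  have h5 : (0 : ℝ) < 2 ^ (2 * ((n1 + 2 * i) / 3)) := by positivity
  have h6 : (0 : ℝ) < 2 ^ (i + 1) := by positivity
  calc (k : ℝ) ^ 3 * (1 / 2 ^ ((n1 + 2 * i) / 3)) ^ 2
      ≤ (5 * ((i + 1 : ℕ) : ℝ) * 2 ^ ((n1 + 2 * i) / 100)) ^ 3 * (1 / 2 ^ ((n1 + 2 * i) / 3)) ^ 2 :=
        mul_le_mul_of_nonneg_right h3 (by positivity)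
    _ = 125 * ((i + 1 : ℕ) : ℝ) ^ 3 * (2 ^ (3 * ((n1 + 2 * i) / 100)) / 2 ^ (2 * ((n1 + 2 * i) / 3))) := by
        rw [mul_pow, mul_pow, div_pow, ← pow_mul, ← pow_mul, mul_comm ((n1 + 2 * i) / 100) 3,
          mul_comm ((n1 + 2 * i) / 3) 2]
        ring
    _ ≤ 125 * ((i + 1 : ℕ) : ℝ) ^ 3 * (8 / 2 ^ (i + 1)) := by
        apply mul_le_mul_of_nonneg_left _ (by positivity)
        rw [div_le_div_iff₀ h5 h6]
        exact h4
    _ = 1000 * (((i + 1 : ℕ) : ℝ) ^ 3 / 2 ^ (i + 1)) := by ring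

theorem ZAD (hSZC : SZC_stmt) : ZAD_stmt := by
  intro n1 c hc0 hc
  obtain ⟨_, _, _, _, hbdd⟩ := hSZC
  obtain ⟨b, hb⟩ := hbdd (c 2)
  have hk := ZCH_kz n1
  have hblk : ∀ k, 3 ≤ k → ∃ i, kz n1 i ≤ k ∧ k < kz n1 (i + 1) := by
    intro k hk3
    obtain ⟨i, j, hj, rfl⟩ := ZCH_block n1 k hk3
    have h3 : kz n1 (i + 1) = kz n1 i + qn (n1 + 2 * i) + 1 := rfl
    exact ⟨i, by omega, by omega⟩
  choose! ix hix1 hix2 using hblk
  refine ⟨hc0, fun k => if k < 2 then 0 else if k = 2 then b else 1 / 2 ^ ((n1 + 2 * ix k) / 3), ?_, ?_⟩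
  · have hs : Tendsto (fun i : ℕ => 1000 * (((i + 1 : ℕ) : ℝ) ^ 3 / 2 ^ (i + 1))) atTop (𝓝 0) := by
      have h := (tendsto_pow_const_div_const_pow_of_one_lt 3 (show (1 : ℝ) < 2 by norm_num))
      have h1 := (h.comp (tendsto_add_atTop_nat 1)).const_mul 1000
      rw [mul_zero] at h1
      exact h1
    rw [Metric.tendsto_atTop] at hs ⊢
    intro e he
    obtain ⟨i0, hi0⟩ := hs e he
    refine ⟨kz n1 i0, fun n hn => ?_⟩
    have h3 : 3 ≤ n := (ZCH_kz3 n1 i0).trans hn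
    have h1 := hix1 n h3
    have h2 := hix2 n h3
    have h4 : i0 ≤ ix n := by
      by_contra hcon
      have h5 : kz n1 (ix n + 1) ≤ kz n1 i0 := hk.monotone (by omega)
      omega
    have h5 := hi0 (ix n) h4
    rw [Real.dist_eq, sub_zero] at h5 ⊢
    beta_reduce
    rw [if_neg (by omega : ¬ n < 2), if_neg (by omega : ¬ n = 2)]
    have h6 := ZAD_bound n1 (ix n) n h2
    have h7 : 0 ≤ (n : ℝ) ^ 3 * (1 / 2 ^ ((n1 + 2 * ix n) / 3)) ^ 2 := by positivity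
    rw [abs_of_nonneg h7]
    exact h6.trans_lt ((le_abs_self _).trans_lt h5)
  · intro k
    show Sz (c k) (if k < 2 then 0 else if k = 2 then b else 1 / 2 ^ ((n1 + 2 * ix k) / 3))
    by_cases h2 : k < 2
    · rw [if_pos h2, hc0 k h2]
      exact ZCH_sz_one 0 le_rfl
    by_cases h3 : k = 2
    · rw [if_neg h2, if_pos h3, h3]
      exact hb
    rw [if_neg h2, if_neg h3]
    exact hc (ix k) k (hix1 k (by omega)) (hix2 k (by omega))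

end M5Z
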