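import Pool.Agent.helper64.D2.SpecD
import Pool.Agent.helper64.D2.SpecF

/-!
# Project d2: (MP_5823cb_al, `Diff^2_+(S^1)` is simple, S01539): the interface between the stage theorem and the chain (helper81)

`MAIN_stmt` (one stage) is the result of the blocks of Pool/Agent/helper90/DH; `CORE2_stmt` (the core theorem without the modulus of continuity) is what the circle part uses. `MAIN_stmt → CORE2_stmt` is `SpecZ.lean`.
-/

set_option autoImplicit false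

open Filter Topology
open scoped commutatorElement
open Pool.Agent.helper64.D2

namespace M5Z

/-- The parameter `ρ` of the stage `n` (size `2^(-n)`). -/
def rn (n : ℕ) : ℕ := 2 ^ (n / 400)

/-- The first level of the high part in the stage `n`. -/
def sn (n : ℕ) : ℕ := rn n ^ 2

/-- The number of the labels (and of the commutators) of the stage `n`. -/
def qn (n : ℕ) : ℕ := rn n ^ 4

/-- **MAIN**: one stage for the high part. The constant `c` makes the projection of `d2 Z` to the functions affine on the cells of level `sn n` smaller than a small multiple of `2^(-n)` (it is `≤ 8 sup|Z'| 2^(sn n) ≤ 8 2^(-n-c)`); the bound of `Z` makes the displacement by the low part small. -/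
def MAIN_stmt : Prop := ∃ n0 c : ℕ, ∀ n : ℕ, n0 ≤ n → ∀ (G : DD) (Z : ℝ → ℝ) (p q : ℝ), Rep G Z → ContDiff ℝ 2 Z → (∀ x, x ∉ Set.Icc p q → Z x = 0) →
  3 / 10 ≤ p → p ≤ q → q ≤ 6 / 10 → (∀ x, |d2 Z x| ≤ 4 / 2 ^ n) → (∀ x, |deriv Z x| ≤ 1 / 2 ^ (n + sn n + c)) →
  (∀ x, |Z x| ≤ 1 / 2 ^ (n + 2 * sn n + c)) →
  ∃ (R u v : ℕ → DD) (X' : ℝ → ℝ), R 0 = G ∧ (∀ j, R (j + 1) = ⁅u j, v j⁆ * R j) ∧
    (∀ j, Sz (R j) (1 / 2 ^ (n / 3)) ∧ Sz (u j) (1 / 2 ^ (n / 3)) ∧ Sz (v j) (1 / 2 ^ (n / 3))) ∧ (∀ j, qn n ≤ j → u j = 1 ∧ v j = 1) ∧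
    Rep (R (qn n)) X' ∧ ContDiff ℝ 2 X' ∧ (∀ x, x ∉ Set.Icc (p - 1 / 2 ^ (n / 4)) (q + 1 / 2 ^ (n / 4)) → X' x = 0) ∧ ∀ x, |d2 X' x| ≤ 1 / 2 ^ (n + 2)

/-- **CORE2**: the core theorem without the modulus of continuity. -/
def CORE2_stmt : Prop := ∃ e0 : ℝ, 0 < e0 ∧ ∀ (f : DD) (X : ℝ → ℝ), Rep f X → ContDiff ℝ 2 X →
  (∀ x, x ∉ Set.Icc (34 / 100 : ℝ) (56 / 100) → X x = 0) → (∀ x, |d2 X x| ≤ e0) → Th (Pi.mulSingle 2 f) ∈ ⁅G2, G2⁆

end M5Z
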