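import Pool.Agent.helper90.DH.SDefs
import Pool.Agent.helper81.DH.ZDefs

/-!
# Project d2: (MP_5823cb_al): the stage theorem of Pool/Agent/helper90/DH/SDefs.lean is `MAIN_stmt` (helper81)
-/

set_option autoImplicit false

open Filter Topology
open scoped commutatorElement
open Pool.Agent.helper64.D2

namespace M5Z

theorem ZBR (h : Pool.Agent.helper90.DH.MAINH_stmt) : MAIN_stmt := by
  obtain ⟨n0, c, h⟩ := h
  refine ⟨n0, c, fun n hn G Z p q h1 h2 h3 h4 h5 h6 h7 h8 h9 => ?_⟩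
  obtain ⟨R, u, v, X', g1, g2, g3, g4, g5, g6, g7, g8⟩ :=
    h n hn G Z p q ⟨h1, h2, h3, h4, h5, h6, fun x => ⟨h7 x, h8 x, h9 x⟩⟩
  exact ⟨R, u, v, X', g1, g2, g3, g4, g5, g6, g8, g7⟩

end M5Z
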