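import Pool.Agent.helper81.DH.ZCH

/-!
# Module ZPL of project d2: (MP_5823cb_al): the low parts are killed (helper81)
-/

set_option autoImplicit false

open Filter Topology
open scoped commutatorElement
open Pool.Agent.helper64.D2

namespace M5Z

theorem ZPL (hHTH : HTH_stmt) (hRSL : RSL_stmt) (hZPN : ZPN_stmt) (hZP6 : ZP6_stmt)
    (hBSQ : BSQ_stmt) (hSZC : SZC_stmt) : ZPL_stmt := by
  intro c
  obtain ⟨B0, hHTH⟩ := hHTH
  obtain ⟨n0, hZPN⟩ := hZPN c B0
  refine ⟨n0, fun n1 hn1 F XF hF => ?_⟩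
  obtain ⟨hB0, hB30, hnum⟩ := hZPN n1 hn1
  obtain ⟨hsz1, _, _, _, _⟩ := hSZC
  obtain ⟨B, hB⟩ : ∃ B : ℕ, B = 2 ^ (n1 / 50) := ⟨_, rfl⟩
  rw [← hB] at hB0 hB30 hnum
  obtain ⟨hbs1, hbs2, _, hbs4, _, _, _, _⟩ := hBSQ B hB30
  have hk := ZCH_kz n1
  have hbpos : ∀ i, (0 : ℝ) < (bs B i : ℝ) := by
    intro i
    have h1 := hbs2 i
    have h2 : 0 < bs B i := by omega
    exact_mod_cast h2
  have main : ∀ l : ℕ, l < 6 → place (fun i => kz n1 (6 * i + l)) (fun i => F (6 * i + l)) ∈ K0 := by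
    intro l hl
    have hst : ∀ i, Rep (F (6 * i + l)) (XF (6 * i + l)) ∧
        St (XF (6 * i + l)) (3 / 10) (6 / 10) (1 / (bs B i : ℝ) ^ 40) (2 ^ (2 * bs B i)) := by
      intro i
      obtain ⟨h1, h2, h3, h4, h5⟩ := hF (6 * i + l)
      obtain ⟨g1, g2, _⟩ := hnum i l hl
      refine ⟨h1, h2, h3, fun x => (h4 x).trans g1, fun x y => (h5 x y).trans ?_⟩
      apply mul_le_mul_of_nonneg_right _ (abs_nonneg _)
      exact pow_le_pow_right₀ (by norm_num) g2
    have h1 := hHTH B hB0 (fun i => F (6 * i + l)) (fun i => XF (6 * i + l)) hst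
    refine hRSL (fun i => kz n1 (6 * i + l)) (fun n => 160 * bs B n) (fun i => F (6 * i + l))
      (fun i => 1 / (bs B i : ℝ) ^ 40) (160 ^ 4) ?_ ?_ ?_ ?_ ?_ ?_ ?_ h1
    · intro a b hab
      exact hk (by omega)
    · intro a b hab
      have := hbs1 hab
      show 160 * bs B a < 160 * bs B b
      omega
    · have := ZCH_kz3 n1 (6 * 0 + l)
      show 2 ≤ kz n1 (6 * 0 + l)
      omega
    · intro i
      exact (hnum i l hl).2.2
    · intro i x
      have h2 := (hsz1 _ _ (hst i).1).2.2.2 x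
      rw [h2]
      exact (hst i).2.2.2.1 x
    · intro i
      have := hbpos i
      positivity
    · intro i
      have hb := hbpos i
      have hb1 : (1 : ℝ) ≤ (bs B i : ℝ) := by
        have h2 := hbs2 i
        have h3 : 1 ≤ bs B i := by omega
        exact_mod_cast h3
      have h3 : (2 : ℝ) ^ i ≤ (bs B i : ℝ) ^ 8 := by exact_mod_cast hbs4 i
      show 1 / (bs B i : ℝ) ^ 40 * ((160 * bs B i : ℕ) : ℝ) ^ 4 * 2 ^ i ≤ 160 ^ 4
      push_cast
      have h4 : (1 : ℝ) ≤ (bs B i : ℝ) ^ 28 := one_le_pow₀ hb1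
      calc 1 / (bs B i : ℝ) ^ 40 * (160 * (bs B i : ℝ)) ^ 4 * 2 ^ i
          ≤ 1 / (bs B i : ℝ) ^ 40 * (160 * (bs B i : ℝ)) ^ 4 * (bs B i : ℝ) ^ 8 :=
            mul_le_mul_of_nonneg_left h3 (by positivity)
        _ = 160 ^ 4 / (bs B i : ℝ) ^ 28 := by
            field_simp
        _ ≤ 160 ^ 4 := div_le_self (by positivity) h4
  rw [hZP6 (kz n1) F hk]
  refine K0.mul_mem (K0.mul_mem (K0.mul_mem (K0.mul_mem (K0.mul_mem ?_ ?_) ?_) ?_) ?_) ?_
  · exact main 0 (by norm_num)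
  · exact main 1 (by norm_num)
  · exact main 2 (by norm_num)
  · exact main 3 (by norm_num)
  · exact main 4 (by norm_num)
  · exact main 5 (by norm_num)

end M5Z
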