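import Pool.Agent.helper81.DH.SpecZ

/-!
# Module ZST of project d2: (MP_5823cb_al): one stage (helper81)
-/

set_option autoImplicit false

open Filter Topology
open scoped commutatorElement
open Pool.Agent.helper64.D2

namespace M5Z

theorem ZST (hMAIN : MAIN_stmt) (hZLP : ZLP_stmt) : ZST_stmt := by
  obtain ⟨n0, c, hMAIN⟩ := hMAIN
  obtain ⟨n1, hZLP⟩ := hZLP c
  refine ⟨max n0 (max n1 100), c + 4, fun n hn f X p q hf hX hsupp hp hpq hq hX2 => ?_⟩
  have hn0 : n0 ≤ n := (le_max_left _ _).trans hn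
  have hn1 : n1 ≤ n := ((le_max_left _ _).trans (le_max_right _ _)).trans hn
  have hn100 : 100 ≤ n := ((le_max_right _ _).trans (le_max_right _ _)).trans hn
  obtain ⟨L, XF, Z, h1, h2, h3, h4, h5, h6, h7, h8⟩ := hZLP n hn1 f X p q hf hX hsupp hp hpq hq hX2
  have e1 : (1 : ℝ) / 2 ^ n ≤ 1 / 100 := by
    apply one_div_le_one_div_of_le (by norm_num)
    calc (100 : ℝ) ≤ 2 ^ 7 := by norm_num
      _ ≤ 2 ^ n := pow_le_pow_right₀ (by norm_num) (by omega)
  have e1' : (0 : ℝ) < 1 / 2 ^ n := by positivity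
  have e2 : (1 : ℝ) / 2 ^ n ≤ 1 / 2 ^ (n / 5 + 1) := by
    apply one_div_le_one_div_of_le (by positivity)
    exact pow_le_pow_right₀ (by norm_num) (by omega)
  have e3 : (1 : ℝ) / 2 ^ (n / 4) ≤ 1 / 2 ^ (n / 5 + 1) := by
    apply one_div_le_one_div_of_le (by positivity)
    exact pow_le_pow_right₀ (by norm_num) (by omega)
  have e4 : (1 : ℝ) / 2 ^ (n / 5 + 1) = 1 / 2 ^ (n / 5) / 2 := by
    rw [pow_succ]
    field_simp
  obtain ⟨R, u, v, X', g1, g2, g3, g4, g5, g6, g7, g8⟩ :=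
    hMAIN n hn0 (f * L⁻¹) Z (p - 1 / 2 ^ n) (q + 1 / 2 ^ n) h3 h4 h5 (by linarith) (by linarith)
      (by linarith) h6 h7 h8
  refine ⟨R, u, v, L⁻¹, XF, X', g1, g2, g3, g4, h1, ?_, g5, g6, ?_, g8⟩
  · rw [← add_assoc]
    exact h2
  · intro x hx
    refine g7 x fun hx' => hx ?_
    exact ⟨by linarith [hx'.1], by linarith [hx'.2]⟩

end M5Z
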