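import Pool.Agent.helper48.DH.Circ
import Pool.Agent.helper81.DH.ZBR
import Pool.Agent.helper81.DH.ZAD
import Pool.Agent.helper81.DH.ZST
import Pool.Agent.helper81.DH.ZPL
import Pool.Agent.helper18.DH.ZCO
import Pool.Agent.helper93.DH.ZPN
import Pool.Agent.helper77.DH.ZP6
import Pool.Agent.helper74.DH.ZLP

/-!
# Project d2: (MP_5823cb_al): from the stage theorem to the simplicity of `Diff^2_+(S^1)` (helper81)
-/

set_option autoImplicit false

open Filter Topology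
open scoped commutatorElement
open Pool.Agent.helper64.D2

namespace M5Z

theorem core2_of_MAIN (hMAIN : MAIN_stmt) : CORE2_stmt := by
  have hBAS : BAS_stmt := BAS
  have hBOX : BOX_stmt := BOX
  have hBSQ : BSQ_stmt := BSQ
  have hBXA : BXA_stmt := BXA hBOX
  have hCMP : CMP_stmt := CMP hBAS
  have hDIF : DIF_stmt := DIF
  have hGLU : GLU_stmt := GLU
  have hGST : GST_stmt := GST
  have hKRS : KRS_stmt := KRS
  have hPLC : PLC_stmt := PLC
  have hRAT : RAT_stmt := RAT hBAS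
  have hSM2 : SM2_stmt := SM2
  have hSMA : SMA_stmt := SMA hDIF
  have hSTP : STP_stmt := STP
  have hSZC : SZC_stmt := SZC
  have hTTT : TTT_stmt := TTT hSM2
  have hADM : ADM_stmt := ADM hSZC
  have hLW1 : LW1_stmt := LW1 hSMA hDIF hBAS hSZC
  have hLW2 : LW2_stmt := LW2 hSMA hDIF hBAS hSZC
  have hPAS : PAS_stmt := PAS hSTP hGST hSMA hDIF hSZC
  have hPRD : PRD_stmt := PRD hSZC
  have hRSL : RSL_stmt := RSL hPLC hPRD hKRS hSZC
  have hSM1 : SM1_stmt := SM1 hSZC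
  have hAPP : APP_stmt := APP hPAS
  have hKTH : KTH_stmt := KTH hADM hSM1 hSM2 hTTT
  have hLOW : LOW_stmt := LOW hLW1 hLW2 hBAS
  have hHST : HST_stmt := HST hCMP hAPP hBOX hLOW hRAT hSZC
  have hHTH : HTH_stmt := HTH hHST hBSQ hGLU hPLC hADM hKRS hSZC
  have hZLP : ZLP_stmt := ZLP hBAS hDIF hBOX hBXA hRAT
  have hZST : ZST_stmt := ZST hMAIN hZLP
  have hZAD : ZAD_stmt := ZAD hSZC
  have hZCH : ZCH_stmt := ZCH hZST hZAD hGLU hPLC
  have hZPN : ZPN_stmt := ZPN
  have hZP6 : ZP6_stmt := ZP6 hPLC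
  have hZPL : ZPL_stmt := ZPL hHTH hRSL hZPN hZP6 hBSQ hSZC
  exact ZCO hZCH hZPL hKRS hADM hKTH

/-- The stage theorem `MAINH_stmt` implies the frozen statement S01539. -/
theorem S_of_MAINH (h : Pool.Agent.helper90.DH.MAINH_stmt) : Pool.Agent.helper48.DH.S_stmt :=
  Pool.Agent.helper48.DH.FIN3 (core2_of_MAIN (ZBR h))

end M5Z
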