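import Pool.Agent.helper90.DH.SDefs
import Pool.Agent.helper57.DH.SpecL

/-!
# Project d2: (MP_5823cb_al): decomposition of `FIN_stmt` (the end of the stage theorem), spec of helper81

Rules: module `XX` is `theorem XX (hYY : YY_stmt) … : XX_stmt` in the file `Pool/Agent/<seat>/DH/XX.lean`, first line `import Pool.Agent.helper81.DH.SpecF`, then `set_option autoImplicit false`,
`open Filter Topology MeasureTheory`, `open scoped commutatorElement`, `namespace Pool.Agent.helper90.DH`, `open Pool.Agent.helper64.D2`. Auxiliary lemmas are prefixed `XX_`. Hypotheses = the statements named under uses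
(you may use fewer; the toolkit statements `LBM, LEA, LEB` are in Pool/Agent/helper57/DH/SpecL.lean, `SZC, BAS` in Pool/Agent/helper64/D2). No `sorry`, no double quotes, no `#` commands, no `axiom`.
`FIN` itself (assembly from these modules and YGEN, BDD, RES, CID, FST, RAT, SZC) is written by helper81.
-/

set_option autoImplicit false

open Filter Topology MeasureTheory
open scoped commutatorElement

namespace Pool.Agent.helper90.DH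

open Pool.Agent.helper64.D2

/-- **FVB** (medium; uses LBM, LEA, LEB). The routed functions are bounded, measurable, and have small support.
Proof. `Es s0 y` is `PA s0`, so `PA N` (LEA). For `s < N` the function `x ↦ w s (ci s x) * Ds s y x` is `PA (s+1)`: on a cell of level `s + 1` the number `ci s x` is constant (`ci s x = ci (s+1) x / 2`) and `Ds s y = Es (s+1) y - Es s y` is affine (LEA); so it is `PA N`. Finite sums and multiples of `PA N` functions are `PA N`.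
`Es s y` vanishes outside `[a - 1/2^s, b + 1/2^s]` (LEB, third part), `s ≥ s0`, so `vf` vanishes outside `[a - 1/2^s0, b + 1/2^s0] ⊆ [0,1]`. LBM (third part). -/
def FVB_stmt : Prop := ∀ (q s0 N : ℕ) (w : ℕ → ℤ → ℝ) (y : ℝ → ℝ) (a b : ℝ), s0 ≤ N → 10 ≤ s0 → PA N y → 1 / 4 ≤ a → b ≤ 3 / 4 → (∀ x, x ∉ Set.Icc a b → y x = 0) →
  BM (vf q s0 N w y) ∧ BM y ∧ BM (Es s0 y) ∧ ∀ x, x ∉ Set.Icc (a - 1 / 2 ^ s0) (b + 1 / 2 ^ s0) → vf q s0 N w y x = 0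

/-- **FML** (medium). Mollification.
Proof. (1) `κ` is continuous with compact support, `v` bounded and measurable, so the product is bounded, measurable and zero outside `[-1,1]`. (2) `mol κ h v x - a = ∫ κ t * (v (x - h t) - a)` (`∫ κ = 1`), absolute value at most `∫ κ t * e = e` (`κ t = 0` for `|t| > 1`, `κ ≥ 0`).
(3) Fubini (`κ s (x - t) v (t - h s)` is bounded, measurable and zero for `|s| > 1`, `t` between `0` and `x`): `A2 (mol κ h v) x = ∫ κ s (∫_0^x (x - t) v (t - h s) dt) ds`, and the inner integral is `∫_(-hs)^(x-hs) (x - h s - t') v t' dt' = A2 v (x - h s)` because `v = 0` on `[-1/10,1/10]`.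
So `A2 (mol κ h v) x - A2 v x = ∫ κ s (A2 v (x - h s) - A2 v x) ds`; `A2 v` is Lipschitz with constant `B` (`(A2 v)' = ∫_0^x v`, `|∫_0^x v| ≤ B` as `v` is supported in `[0,1]`; or directly: for `x ≤ x'`, `A2 v x' - A2 v x = (x'-x) ∫_0^x v + ∫_x^x' (x' - t) v t dt`; to have the exact constant write it as `∫_x^x' (∫_0^t v) dt`). -/
def FML_stmt : Prop := ∀ κ : ℝ → ℝ, KER κ → ∀ v : ℝ → ℝ, BM v → ∀ h : ℝ, 0 < h →
  (∀ x, Integrable (fun t => κ t * v (x - h * t))) ∧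
  (∀ x a e : ℝ, (∀ t : ℝ, |t| ≤ 1 → |v (x - h * t) - a| ≤ e) → |mol κ h v x - a| ≤ e) ∧
  ∀ B : ℝ, (∀ x, |v x| ≤ B) → (∀ x, x ∉ Set.Icc (1 / 5 : ℝ) (4 / 5) → v x = 0) → h ≤ 1 / 10 → ∀ x, |A2 (mol κ h v) x - A2 v x| ≤ B * h

/-- **FLD** (short/medium; uses FML, LBM). Sums of mollified functions.
Proof. `integral_finset_sum` (FML (1)); the second part: `∑_i mol κ h (v i) (z i) = ∫ κ t * ∑_i v i (z i - h t)`, and `|∫ κ t * g t| ≤ b` if `|g| ≤ b` on `[-1,1]` (as in FML (2) with `a = 0`; note `κ t = 0` for `|t| > 1`). -/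
def FLD_stmt : Prop := ∀ κ : ℝ → ℝ, KER κ → ∀ (I : Finset ℕ) (v : ℕ → ℝ → ℝ), (∀ i ∈ I, BM (v i)) → ∀ h : ℝ, 0 < h →
  (∀ x, ∑ i ∈ I, mol κ h (v i) x = mol κ h (fun z => ∑ i ∈ I, v i z) x) ∧
  ∀ (z : ℕ → ℝ) (b : ℝ), (∀ t : ℝ, |t| ≤ 1 → |∑ i ∈ I, v i (z i - h * t)| ≤ b) → |∑ i ∈ I, mol κ h (v i) (z i)| ≤ b

/-- **FSP** (short/medium; uses SZC). Support of the partial residuals.
Proof. Downward induction on `i` (from `R q = 1`). Let `x < a - γ` or `x > b + γ`. `R (i+1) x = x`; `|G i x - x| ≤ γ` (SZC, second part), so `z = G i x` is outside `[a,b]`. `Q j z = z` for `j ≤ q` (`IsQ`), so `(Q (i+1))⁻¹ z = z` and `Q i z = z`; hence `(Q i * (Q (i+1))⁻¹) z = z`, `(G i)⁻¹ z = x`. -/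
def FSP_stmt : Prop := ∀ (q : ℕ) (Y : ℕ → ℝ → ℝ) (G Q R : ℕ → DD) (a b γ : ℝ), a ≤ b → 0 ≤ γ → IsQ q Y Q → IsR q G Q R →
  (∀ k < q, ∀ x, x ∉ Set.Icc a b → Y k x = 0) → (∀ i < q, Sz (G i) γ) → ∀ i ≤ q, ∀ x, x ∉ Set.Icc (a - γ) (b + γ) → ev (R i) x = x

/-- **FCH** (short/medium; uses SZC). The chain multiplied by `H` from the left.
Proof. `R' j = H * V (min j q)`, `u' j = H * u j * H⁻¹`, `v' j = H * v j * H⁻¹` for `j < q`, `u' j = v' j = 1` for `j ≥ q`. `H ⁅u,v⁆ V = ⁅H u H⁻¹, H v H⁻¹⁆ H V`. Sizes (SZC): `H`, `u` of size `a ≤ 1/100`, `H⁻¹` of size `2a`: `H u` of size `2a + 4a^2`, `H u H⁻¹` of size `≤ 10 a` (all factors `≤ 1/8`). -/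
def FCH_stmt : Prop := ∀ (q : ℕ) (V u v : ℕ → DD) (H : DD) (a : ℝ), 0 ≤ a → a ≤ 1 / 100 → (∀ i < q, V (i + 1) = ⁅u i, v i⁆ * V i) →
  (∀ i ≤ q, Sz (V i) a ∧ Sz (u i) a ∧ Sz (v i) a) → Sz H a →
  ∃ R' u' v' : ℕ → DD, R' 0 = H * V 0 ∧ R' q = H * V q ∧ (∀ j, R' (j + 1) = ⁅u' j, v' j⁆ * R' j) ∧
    (∀ j, Sz (R' j) (10 * a) ∧ Sz (u' j) (10 * a) ∧ Sz (v' j) (10 * a)) ∧ ∀ j, q ≤ j → u' j = 1 ∧ v' j = 1

/-- **FNU** (medium). Numbers of the assembly (`q = qn n = 2^(4 (n/400))`, `s0 = s0n n = 4^(n/400)`).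
Proof. Every line is a comparison of `2^(-c n)` with a constant, or of `q ≤ 2^(n/100)`; `s0n n ≥ n` for `n ≥ 6000`; `q → ∞`. For each line an `n0`; take the maximum (or: `Filter.Eventually.and`). -/
def FNU_stmt : Prop := ∀ K B : ℝ, 1 ≤ K → 1 ≤ B → ∃ n0 : ℕ, ∀ n : ℕ, n0 ≤ n → 10 ≤ s0n n ∧ n ≤ s0n n ∧ 1 ≤ qn n ∧
  K * ((5 / 2 ^ n) * B + (qn n : ℝ) * (1 / ((qn n : ℝ) * 2 ^ (3 * n))) + (qn n : ℝ) * (1 / (qn n : ℝ) ^ 2)) ≤ 1 ∧
  K * (5 / 2 ^ n) * B * (qn n : ℝ) ≤ 1 ∧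
  K * 2 ≤ (qn n : ℝ) ∧
  K * (((5 / 2 ^ n) * B + (qn n : ℝ) * (1 / ((qn n : ℝ) * 2 ^ (3 * n)))) ^ 2 + (qn n : ℝ) * (1 / ((qn n : ℝ) * 2 ^ (3 * n)))) ≤ 1 / 100 * (1 / 2 ^ n) ∧
  10 * (K * ((5 / 2 ^ n) * B + (qn n : ℝ) * (1 / ((qn n : ℝ) * 2 ^ (3 * n)))) + 20 / 2 ^ (3 * n)) ≤ 1 / 2 ^ (n / 3) ∧
  K * ((5 / 2 ^ n) * B + (qn n : ℝ) * (1 / ((qn n : ℝ) * 2 ^ (3 * n)))) + 20 / 2 ^ (3 * n) ≤ 1 / 100 ∧
  (5 : ℝ) / 2 ^ s0n n + 1 / ((qn n : ℝ) * 2 ^ (3 * n)) ≤ 1 / 2 ^ (n / 4) ∧ (1 : ℝ) / ((qn n : ℝ) * 2 ^ (3 * n)) ≤ 1 / 1000 ∧ (5 : ℝ) / 2 ^ n ≤ 1 / 1000 ∧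
  (20 : ℝ) / 2 ^ (3 * n) + 172 / 1000 * (1 / 2 ^ n) + 4 * (20 / 2 ^ (3 * n)) * (172 / 1000 * (1 / 2 ^ n)) ≤ 1 / 2 ^ (n + 2)

end Pool.Agent.helper90.DH
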