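import Pool.Agent.helper81.DH.ZDefs

/-!
# Project d2: (MP_5823cb_al, S01539): low part and chain (helper81)

Start: `MAIN_stmt`. Result: `ZCO_stmt = CORE2_stmt`. Page: /team-store/MP_5823cb_helper90.md, version 2: ALL the levels below `sn n` are the LOW PART; it is a factor `L` of the stage which is killed in the chain by `HTH` and `RSL` of project dc: (Pool/Agent/helper64/D2/Spec*.lean; all modules there are proved,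
see Pool/Agent/helper89/D2/All.lean).

Rules: module `XX` is `theorem XX (hYY : YY_stmt) … : XX_stmt` in the file `Pool/Agent/<seat>/DH/XX.lean` with `import Pool.Agent.helper81.DH.SpecZ`, `set_option autoImplicit false`, `open Filter Topology`, `open scoped commutatorElement`, `open Pool.Agent.helper64.D2`, `namespace M5Z`.
Hypotheses: the statements listed under `uses` (any other statement of this file which stands before yours or of the D2 specs is allowed; `BAS_stmt, DIF_stmt, …` without definition here are those of D2). Auxiliary lemmas prefixed `XX_`. No `sorry`, no double quotes in comments, no `#` commands.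
-/

set_option autoImplicit false

open Filter Topology
open scoped commutatorElement
open Pool.Agent.helper64.D2

namespace M5Z

/-- **ZLP** (medium). The low part. uses: BAS, DIF, BOX, BXA, RAT.
Proof. `a = 1/2^n`, `r = 1/2^(sn n + c + 1)`; for `n ≥ n1` (`n1 ≥ 6000`) `sn n ≥ n` (`sn n = 4^m`, `m = n/400`, `4^m ≥ 400 (m + 1)` for `m ≥ 6`), so `r ≤ 1/2^n`. `XL = av X (-r) r`: BOX (`α = -r`, `β = r`): `C^2`, zero outside `[p-r,q+r]`, `|XL''| ≤ a`, `XL''` Lipschitz with constant `2a/(2r) = 2^(sn n + c + 1)/2^n`.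
`|XL'| ≤ a ≤ 1/2` (BAS), `L = id + XL ∈ DD` (DIF). `|XL' - X'| ≤ a r` (BXA). RAT with `g = f`, `c = L` on `[p-r,q+r]`: `Z`, with `e = 2a` (second derivatives) and `e = a r` (first derivatives): `|Z''| ≤ 4a`, `|Z'| ≤ 2 a r = 1/2^(n + sn n + c)`.
`Z x = D (L⁻¹ x)`, `D = X - XL` (`x = L (L⁻¹ x)`), and `D x = (1/(2r)) ∫_(-r)^r (X x + X' x t - X (x+t)) dt`, `|X (x+t) - X x - t X' x| ≤ a t^2`, so `|Z| ≤ a r^2 ≤ 1/2^(n + 2 sn n + c)`.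
RAT with `g = 1` (`X = 0`), `c = L` on `[3/10,6/10]`: `XF`, `|XF''| ≤ 2a`, Lipschitz constant `6 · 2^(sn n + c + 1) + 1 ≤ 2^(sn n + c + 4)`. -/
def ZLP_stmt : Prop := ∀ c : ℕ, ∃ n1 : ℕ, ∀ n : ℕ, n1 ≤ n → ∀ (f : DD) (X : ℝ → ℝ) (p q : ℝ), Rep f X → ContDiff ℝ 2 X → (∀ x, x ∉ Set.Icc p q → X x = 0) →
  31 / 100 ≤ p → p ≤ q → q ≤ 59 / 100 → (∀ x, |d2 X x| ≤ 1 / 2 ^ n) →
  ∃ (L : DD) (XF Z : ℝ → ℝ), Rep L⁻¹ XF ∧ St XF (3 / 10) (6 / 10) (2 / 2 ^ n) (2 ^ (sn n + c + 4)) ∧ Rep (f * L⁻¹) Z ∧ ContDiff ℝ 2 Z ∧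
    (∀ x, x ∉ Set.Icc (p - 1 / 2 ^ n) (q + 1 / 2 ^ n) → Z x = 0) ∧ (∀ x, |d2 Z x| ≤ 4 / 2 ^ n) ∧ (∀ x, |deriv Z x| ≤ 1 / 2 ^ (n + sn n + c)) ∧
    ∀ x, |Z x| ≤ 1 / 2 ^ (n + 2 * sn n + c)

/-- **ZST** (short). One stage. uses: MAIN, ZLP.
Proof. `c` of MAIN, ZLP with this `c`; `F = L⁻¹`, MAIN with `G = f F` on `[p - 1/2^n, q + 1/2^n] ⊆ [3/10,6/10]` (`n ≥ 7`); `1/2^n + 1/2^(n/4) ≤ 1/2^(n/5)` for `n ≥ 100` (`n/4 ≥ n/5 + 1`). The new `c` is `c + 4`. -/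
def ZST_stmt : Prop := ∃ n0 c : ℕ, ∀ n : ℕ, n0 ≤ n → ∀ (f : DD) (X : ℝ → ℝ) (p q : ℝ), Rep f X → ContDiff ℝ 2 X → (∀ x, x ∉ Set.Icc p q → X x = 0) →
  31 / 100 ≤ p → p ≤ q → q ≤ 59 / 100 → (∀ x, |d2 X x| ≤ 1 / 2 ^ n) →
  ∃ (R u v : ℕ → DD) (F : DD) (XF X' : ℝ → ℝ), R 0 = f * F ∧ (∀ j, R (j + 1) = ⁅u j, v j⁆ * R j) ∧
    (∀ j, Sz (R j) (1 / 2 ^ (n / 3)) ∧ Sz (u j) (1 / 2 ^ (n / 3)) ∧ Sz (v j) (1 / 2 ^ (n / 3))) ∧ (∀ j, qn n ≤ j → u j = 1 ∧ v j = 1) ∧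
    Rep F XF ∧ St XF (3 / 10) (6 / 10) (2 / 2 ^ n) (2 ^ (sn n + c)) ∧
    Rep (R (qn n)) X' ∧ ContDiff ℝ 2 X' ∧ (∀ x, x ∉ Set.Icc (p - 1 / 2 ^ (n / 5)) (q + 1 / 2 ^ (n / 5)) → X' x = 0) ∧ ∀ x, |d2 X' x| ≤ 1 / 2 ^ (n + 2)

/-- The slot at which the stage `i` begins (the element has size `2^(-(n1 + 2 i))`). -/
def kz (n1 : ℕ) : ℕ → ℕ
  | 0 => 3
  | i + 1 => kz n1 i + qn (n1 + 2 * i) + 1

/-- **ZAD** (medium). Admissible sequences in the slots `kz`. uses: SZC.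
Proof. `qn (n1 + 2 j) ≤ T := qn (n1 + 2 i)` for `j ≤ i`, so `kz n1 (i+1) ≤ 3 + (i + 1) (T + 1)` (also `StrictMono (kz n1)`, `i ≤ kz n1 i`), so every `k ≥ 3` is in exactly one block `kz n1 i ≤ k < kz n1 (i+1)`. Bounds: `a k = 1/2^((n1 + 2 i)/3)` in the block `i`, `a 0 = a 1 = 0` (`d2 (ev 1) = 0`), `a 2` a bound of `c 2` (SZC, last part).
In the block `i`: `k^3 a_k^2 ≤ (3 + (i+1) (T+1))^3/4^((n1+2i)/3)`; with `N = n1 + 2 i`: `T = 2^(4 (N/400)) ≤ 2^(N/50)`, `4^(N/3) ≥ 2^(N/2)` (`N ≥ 6`), so this is `≤ (4 (i+2) 2^(N/50))^3/2^(N/2) → 0` for `i → ∞` (and `i → ∞` for `k → ∞`). -/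
def ZAD_stmt : Prop := ∀ (n1 : ℕ) (c : ℕ → DD), (∀ k < 2, c k = 1) → (∀ i k, kz n1 i ≤ k → k < kz n1 (i + 1) → Sz (c k) (1 / 2 ^ ((n1 + 2 * i) / 3))) → Adm c

/-- **ZCH** (LONG). The chain. uses: ZST, ZAD, GLU, PLC.
Proof. `n0` at least that of ZST and `1000`. Recursion (dependent choice) of `f_i = id + X_i`, `f_0 = f`, with `|X_i''| ≤ 1/2^(n1 + 2i)`, `X_i = 0` outside `[p_i,q_i]`, `p_i = 32/100 + (2/100)/(i+1)`, `q_i = 58/100 - (2/100)/(i+1)`: ZST with `n = n1 + 2 i` gives `R^i, u^i, v^i, F_i, XF_i` and `f_(i+1) = R^i (qn n)`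
(`1/2^(n/5) ≤ (2/100)/((i+1)(i+2))`, that is `50 (i+1)(i+2) ≤ 2^((n1+2i)/5)`, for `n1 ≥ 1000`; monotonicity: the support may be enlarged). GLU with `k = kz n1` and `Z i m = R^i (m - kz n1 i)` etc.: `V m = R^i (m - kz n1 i)` for `kz n1 i ≤ m < kz n1 (i+1)`, `V 0 = V 1 = 1`, `V 2 = f`; `U m = u^i (m - kz n1 i - 1)`, `W m = v^i (m - kz n1 i - 1)` for
`kz n1 i < m < kz n1 (i+1)`, `U = W = 1` at `m = kz n1 i` and for `m < 3`. The identity slot by slot: `m < 2`: all is `1`; `m = 2`: `f = 1 · 1 · f`; `m = kz n1 0 = 3`: `V 3 = R^0 0 = f F_0 = V 2 · F_0`; `m = kz n1 (i+1)`: `V (m-1) = R^i (qn n) = f_(i+1)`, `V m = R^(i+1) 0 = f_(i+1) F_(i+1)`; `kz n1 i < m < kz n1 (i+1)`: `V m = ⁅u,v⁆ V (m-1)`.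
`place` at the slots: PLC; `Pi.mulSingle 2 f m = 1` for `m ≠ 2`, `place (kz n1) F m = 1` if `m` is not a `kz n1 i`. Admissible: ZAD (`Sz 1 a` for `a ≥ 0`). -/
def ZCH_stmt : Prop := ∃ n0 c : ℕ, ∀ n1 : ℕ, n0 ≤ n1 → ∀ (f : DD) (X : ℝ → ℝ), Rep f X → ContDiff ℝ 2 X → (∀ x, x ∉ Set.Icc (34 / 100 : ℝ) (56 / 100) → X x = 0) →
  (∀ x, |d2 X x| ≤ 1 / 2 ^ n1) → ∃ (V U W F : ℕ → DD) (XF : ℕ → ℝ → ℝ), Adm V ∧ Adm U ∧ Adm W ∧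
    (∀ i, Rep (F i) (XF i) ∧ St (XF i) (3 / 10) (6 / 10) (2 / 2 ^ (n1 + 2 * i)) (2 ^ (sn (n1 + 2 * i) + c))) ∧
    V = ⁅U, W⁆ * sh V * (Pi.mulSingle 2 f * place (kz n1) F)

/-- **ZPN** (medium). Numbers: the low parts fit into the slots `160 bs B i`. uses: BSQ.
Proof. `B = 2^(n1/50)`; `n1` large, so `B ≥ B0`, `B ≥ 30`. BSQ: `7 bs B i ≤ 6 bs B (i+1)`, `5 bs B (i+1) ≤ 6 bs B i`, so (reals) `B (7/6)^i ≤ bs B i ≤ B (6/5)^i`. (1) `2 (bs B i)^40 ≤ 2 · 2^(40 (n1/50)) ((6/5)^40)^i`, `(6/5)^40 ≤ 2^11`, `40 (n1/50) ≤ 4 n1/5`, so it is `≤ 2^(n1 + 12 i)` for `n1 ≥ 5`.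
(2) with `N = n1 + 2 (6 i + l) ≤ n1 + 12 i + 10`: `sn N = 4^(N/400) ≤ 2^(N/200)` (real exponent) `≤ 2 · 2^(n1/200) 2^(3 i/50)`, and `2 bs B i ≥ 2^(n1/50) (7/6)^i` (`B ≥ 2^(n1/50 - 1)`, real exponent), `(7/6)^50 ≥ 2^11`; the constant `c` is absorbed for `n1` large.
(3) `kz n1 j ≤ 3 + j (qn (n1 + 2 j) + 1)` (induction, monotonicity of `qn`), with `j = 6 i + l ≤ 6 i + 5`: `qn (n1 + 2 j) = 2^(4 ((n1 + 2j)/400)) ≤ 2^(n1/100) 2^(j/50) ≤ 2 · 2^(n1/100) 2^(6 i/50)`, so `kz n1 j ≤ 40 (i + 1) 2^(n1/100) 2^(6 i/50)` against `80 · 2^(n1/50) (7/6)^i`, `(7/6)^50 ≥ 2^11`, `i + 1 ≤ 20 · 2^(i/20)`;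
the factor `2^(n1/100)` absorbs all constants. (If you prefer integers: prove by induction on `i` inequalities between the `50`-th or `200`-th powers.) -/
def ZPN_stmt : Prop := ∀ c B0 : ℕ, ∃ n0 : ℕ, ∀ n1 : ℕ, n0 ≤ n1 → B0 ≤ 2 ^ (n1 / 50) ∧ 30 ≤ 2 ^ (n1 / 50) ∧ ∀ i l : ℕ, l < 6 →
  (2 : ℝ) / 2 ^ (n1 + 2 * (6 * i + l)) ≤ 1 / (bs (2 ^ (n1 / 50)) i : ℝ) ^ 40 ∧ sn (n1 + 2 * (6 * i + l)) + c ≤ 2 * bs (2 ^ (n1 / 50)) i ∧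
  kz n1 (6 * i + l) ≤ 160 * bs (2 ^ (n1 / 50)) i

/-- **ZP6** (short/medium). Splitting a placed sequence into six. uses: PLC.
Proof. For every slot `m` at most one `j` has `k j = m`, `j = 6 i + l`: all six factors are `1` at `m` except the one for `l`, where it is `F j` (PLC for `i ↦ k (6 i + l)`, strictly monotone). -/
def ZP6_stmt : Prop := ∀ (k : ℕ → ℕ) (F : ℕ → DD), StrictMono k →
  place k F = place (fun i => k (6 * i)) (fun i => F (6 * i)) * place (fun i => k (6 * i + 1)) (fun i => F (6 * i + 1)) *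
    place (fun i => k (6 * i + 2)) (fun i => F (6 * i + 2)) * place (fun i => k (6 * i + 3)) (fun i => F (6 * i + 3)) *
    place (fun i => k (6 * i + 4)) (fun i => F (6 * i + 4)) * place (fun i => k (6 * i + 5)) (fun i => F (6 * i + 5))

/-- **ZPL** (medium). The low parts are killed. uses: HTH, RSL, ZPN, ZP6, BSQ, SZC.
Proof. `B0` of HTH, ZPN with `c`, `B0`; `B = 2^(n1/50)`. For `l < 6` let `F' i = F (6 i + l)`: by ZPN `St (XF (6 i + l)) (3/10) (6/10) (1/(bs B i)^40) (2^(2 bs B i))`, so HTH: `place (fun i => 160 bs B i) F' ∈ K0`. RSL with `k i = kz n1 (6 i + l) ≤ k' i = 160 bs B i`, `a i = 1/(bs B i)^40` (`Sz (F' i) (a i)` from SZC, first part),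
`a i (160 bs B i)^4 2^i ≤ 160^4` because `2^i ≤ (bs B i)^8` (BSQ): `place (fun i => kz n1 (6 i + l)) F' ∈ K0` (`StrictMono (kz n1)`, `kz n1 0 = 3`). ZP6, `Subgroup.mul_mem`. -/
def ZPL_stmt : Prop := ∀ c : ℕ, ∃ n0 : ℕ, ∀ n1 : ℕ, n0 ≤ n1 → ∀ (F : ℕ → DD) (XF : ℕ → ℝ → ℝ),
  (∀ i, Rep (F i) (XF i) ∧ St (XF i) (3 / 10) (6 / 10) (2 / 2 ^ (n1 + 2 * i)) (2 ^ (sn (n1 + 2 * i) + c))) → place (kz n1) F ∈ K0

/-- **ZCO** (short/medium). The core theorem without the modulus of continuity. uses: ZCH, ZPL, KRS, ADM, KTH.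
Proof. `e0 = 1/2^n1` for `n1` at least the `n0` of ZCH and of ZPL (with the `c` of ZCH). `y = Pi.mulSingle 2 f * place (kz n1) F`, `x = ⁅U,W⁆⁻¹`: `x V = sh V y`; `y = (sh V)⁻¹ x V` is admissible (ADM), KRS: `x y⁻¹ ∈ K0`; `⁅U,W⁆ = U W U⁻¹ W⁻¹ ∈ K0` (`Subgroup.subset_closure`), so `y ∈ K0`; ZPL: `Pi.mulSingle 2 f ∈ K0`. KTH. -/
def ZCO_stmt : Prop := CORE2_stmt

end M5Z
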