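import Pool.Agent.helper81.DH.SpecZ

/-!
# Module ZCH of project d2: (MP_5823cb_al): the chain (helper81)
-/

set_option autoImplicit false

open Filter Topology
open scoped commutatorElement
open Pool.Agent.helper64.D2

namespace M5Z

theorem ZCH_sz_one (a : ℝ) (ha : 0 ≤ a) : Sz 1 a := by
  intro x
  have h : ev (1 : DD) = fun x => x := by
    funext y
    exact ev_one y
  have h1 : deriv (ev (1 : DD)) = fun _ => 1 := by
    rw [h]
    funext y
    simp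
  rw [d2, h1]
  simpa using ha

theorem ZCH_kz (n1 : ℕ) : StrictMono (kz n1) := by
  refine strictMono_nat_of_lt_succ fun i => ?_
  show kz n1 i < kz n1 i + qn (n1 + 2 * i) + 1
  omega

theorem ZCH_kz3 (n1 i : ℕ) : 3 ≤ kz n1 i := (ZCH_kz n1).monotone (Nat.zero_le i)

/-- every slot from the first one on is in exactly one block -/
theorem ZCH_block (n1 n : ℕ) (hn : 3 ≤ n) :
    ∃ i j, j ≤ qn (n1 + 2 * i) ∧ n = kz n1 i + j := by
  have hk := ZCH_kz n1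
  have h : ∃ i, kz n1 i ≤ n ∧ n < kz n1 (i + 1) := by
    by_contra hcon
    push Not at hcon
    have h : ∀ i, kz n1 i ≤ n := by
      intro i
      induction i with
      | zero => exact hn
      | succ i ih => exact hcon i ih
    have h1 := hk.id_le (n + 1)
    have h2 := h (n + 1)
    simp only [id] at h1
    omega
  obtain ⟨i, h1, h2⟩ := h
  have h3 : kz n1 (i + 1) = kz n1 i + qn (n1 + 2 * i) + 1 := rfl
  exact ⟨i, n - kz n1 i, by omega, by omega⟩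

/-- the inequality for the supports -/
theorem ZCH_num (n1 i : ℕ) (hn : 1000 ≤ n1) :
    (1 : ℝ) / 2 ^ ((n1 + 2 * i) / 5) ≤ (2 / 100) / ((i : ℝ) + 1) - (2 / 100) / ((i : ℝ) + 1 + 1) := by
  have h1 : 50 * ((i + 1) * (i + 2)) ≤ 2 ^ ((n1 + 2 * i) / 5) := by
    have h2 : ∀ k : ℕ, k + 1 ≤ 2 ^ k := fun k => Nat.lt_two_pow_self
    have h3 := h2 (i / 5)
    have h4 : i + 2 ≤ 6 * 2 ^ (i / 5) := by omega
    have h5 : (i + 1) * (i + 2) ≤ (6 * 2 ^ (i / 5)) * (6 * 2 ^ (i / 5)) :=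
      Nat.mul_le_mul (by omega) h4
    calc 50 * ((i + 1) * (i + 2)) ≤ 50 * ((6 * 2 ^ (i / 5)) * (6 * 2 ^ (i / 5))) :=
          Nat.mul_le_mul_left 50 h5
      _ = 1800 * 2 ^ (i / 5 + i / 5) := by rw [pow_add]; ring
      _ ≤ 2 ^ 200 * 2 ^ (i / 5 + i / 5) := Nat.mul_le_mul_right _ (by norm_num)
      _ = 2 ^ (200 + (i / 5 + i / 5)) := by rw [pow_add 2 200]
      _ ≤ 2 ^ ((n1 + 2 * i) / 5) := Nat.pow_le_pow_right (by norm_num) (by omega)
  have h6 : (50 : ℝ) * (((i : ℝ) + 1) * ((i : ℝ) + 1 + 1)) ≤ 2 ^ ((n1 + 2 * i) / 5) := by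
    have h7 : ((50 * ((i + 1) * (i + 2)) : ℕ) : ℝ) ≤ ((2 ^ ((n1 + 2 * i) / 5) : ℕ) : ℝ) := by
      exact_mod_cast h1
    push_cast at h7
    nlinarith [h7]
  have h8 : (0 : ℝ) < (i : ℝ) + 1 := by positivity
  have h9 : (0 : ℝ) < (i : ℝ) + 1 + 1 := by positivity
  have h10 : (2 / 100 : ℝ) / ((i : ℝ) + 1) - (2 / 100) / ((i : ℝ) + 1 + 1)
      = 1 / (50 * (((i : ℝ) + 1) * ((i : ℝ) + 1 + 1))) := by
    field_simp
    ring
  rw [h10]
  exact one_div_le_one_div_of_le (by positivity) h6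

/-- the data of a stage -/
structure ZCH_D where
  f : DD
  X : ℝ → ℝ
  R : ℕ → DD
  u : ℕ → DD
  v : ℕ → DD
  F : DD
  XF : ℝ → ℝ

/-- the properties of the data of the stage `i`. -/
def ZCH_P (n1 c i : ℕ) (d : ZCH_D) : Prop :=
  (Rep d.f d.X ∧ ContDiff ℝ 2 d.X ∧ (∀ x, x ∉ Set.Icc (32 / 100 + (2 / 100) / ((i : ℝ) + 1)) (58 / 100 - (2 / 100) / ((i : ℝ) + 1)) → d.X x = 0) ∧
    (∀ x, |d2 d.X x| ≤ 1 / 2 ^ (n1 + 2 * i))) ∧
  d.R 0 = d.f * d.F ∧ (∀ j, d.R (j + 1) = ⁅d.u j, d.v j⁆ * d.R j) ∧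
  (∀ j, Sz (d.R j) (1 / 2 ^ ((n1 + 2 * i) / 3)) ∧ Sz (d.u j) (1 / 2 ^ ((n1 + 2 * i) / 3)) ∧ Sz (d.v j) (1 / 2 ^ ((n1 + 2 * i) / 3))) ∧
  (∀ j, qn (n1 + 2 * i) ≤ j → d.u j = 1 ∧ d.v j = 1) ∧
  Rep d.F d.XF ∧ St d.XF (3 / 10) (6 / 10) (2 / 2 ^ (n1 + 2 * i)) (2 ^ (sn (n1 + 2 * i) + c)) ∧
  ∃ X' : ℝ → ℝ, Rep (d.R (qn (n1 + 2 * i))) X' ∧ ContDiff ℝ 2 X' ∧
    (∀ x, x ∉ Set.Icc (32 / 100 + (2 / 100) / ((i : ℝ) + 1 + 1)) (58 / 100 - (2 / 100) / ((i : ℝ) + 1 + 1)) → X' x = 0) ∧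
    ∀ x, |d2 X' x| ≤ 1 / 2 ^ (n1 + 2 * (i + 1))

theorem ZCH (hZST : ZST_stmt) (hZAD : ZAD_stmt) (hGLU : GLU_stmt) (hPLC : PLC_stmt) : ZCH_stmt := by
  obtain ⟨n0, c, hZST⟩ := hZST
  refine ⟨max n0 1000, c, fun n1 hn1 f X hf hX hsupp hX2 => ?_⟩
  have hn0 : n0 ≤ n1 := (le_max_left _ _).trans hn1
  have hn1000 : 1000 ≤ n1 := (le_max_right _ _).trans hn1
  -- one stage
  have hst : ∀ (i : ℕ) (f : DD) (X : ℝ → ℝ), Rep f X → ContDiff ℝ 2 X →
      (∀ x, x ∉ Set.Icc (32 / 100 + (2 / 100) / ((i : ℝ) + 1)) (58 / 100 - (2 / 100) / ((i : ℝ) + 1)) → X x = 0) →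
      (∀ x, |d2 X x| ≤ 1 / 2 ^ (n1 + 2 * i)) → ∃ d : ZCH_D, ZCH_P n1 c i d ∧ d.f = f := by
    intro i f X h1 h2 h3 h4
    have e1 : (0 : ℝ) < (2 / 100) / ((i : ℝ) + 1) := by positivity
    have e2 : (2 / 100 : ℝ) / ((i : ℝ) + 1) ≤ 2 / 100 := by
      apply div_le_self (by norm_num)
      have : (0 : ℝ) ≤ (i : ℝ) := Nat.cast_nonneg i
      linarith
    obtain ⟨R, u, v, F, XF, X', g1, g2, g3, g4, g5, g6, g7, g8, g9, g10⟩ :=
      hZST (n1 + 2 * i) (by omega) f X _ _ h1 h2 h3 (by linarith) (by linarith) (by linarith) h4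
    refine ⟨⟨f, X, R, u, v, F, XF⟩, ⟨⟨h1, h2, h3, h4⟩, g1, g2, g3, g4, g5, g6, X', g7, g8, ?_, ?_⟩, rfl⟩
    · intro x hx
      refine g9 x fun hx' => hx ?_
      have h5 := ZCH_num n1 i hn1000
      exact ⟨by linarith [hx'.1], by linarith [hx'.2]⟩
    · intro x
      have h5 := g10 x
      rwa [show n1 + 2 * i + 2 = n1 + 2 * (i + 1) by ring] at h5
  have h00 : ∃ d : ZCH_D, ZCH_P n1 c 0 d ∧ d.f = f := by
    refine hst 0 f X hf hX (fun x hx => hsupp x fun hx' => hx ?_) (by simpa using hX2)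
    norm_num
    exact ⟨by linarith [hx'.1], by linarith [hx'.2]⟩
  have hss : ∀ (i : ℕ) (d : {d : ZCH_D // ZCH_P n1 c i d}),
      ∃ d' : {d' : ZCH_D // ZCH_P n1 c (i + 1) d'}, d'.1.f = d.1.R (qn (n1 + 2 * i)) := by
    intro i d
    obtain ⟨X', h1, h2, h3, h4⟩ := d.2.2.2.2.2.2.2.2
    obtain ⟨d', hd', hd'f⟩ := hst (i + 1) (d.1.R (qn (n1 + 2 * i))) X' h1 h2
      (by push_cast; exact h3) h4
    exact ⟨⟨d', hd'⟩, hd'f⟩
  obtain ⟨d0, hd0, hd0f⟩ := h00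
  choose nx hnx using hss
  obtain ⟨D, hD0, hDs⟩ : ∃ D : (i : ℕ) → {d : ZCH_D // ZCH_P n1 c i d},
      D 0 = ⟨d0, hd0⟩ ∧ ∀ i, D (i + 1) = nx i (D i) :=
    ⟨fun i => Nat.rec ⟨d0, hd0⟩ (fun i d => nx i d) i, rfl, fun _ => rfl⟩
  have hDf : ∀ i, (D (i + 1)).1.f = (D i).1.R (qn (n1 + 2 * i)) := by
    intro i
    rw [hDs]
    exact hnx i (D i)
  have hDf0 : (D 0).1.f = f := by
    rw [hD0]
    exact hd0f
  have hP := fun i => (D i).2
  -- the sequences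
  have hk := ZCH_kz n1
  have hk3 := ZCH_kz3 n1
  have hksucc : ∀ i, kz n1 (i + 1) = kz n1 i + qn (n1 + 2 * i) + 1 := fun _ => rfl
  have hk0 : kz n1 0 = 3 := rfl
  obtain ⟨V', hV'1, hV'2⟩ := hGLU DD (kz n1) (fun i n => (D i).1.R (n - kz n1 i)) 1 hk
  obtain ⟨U, hU1, hU2⟩ := hGLU DD (kz n1)
    (fun i n => if n = kz n1 i then 1 else (D i).1.u (n - kz n1 i - 1)) 1 hk
  obtain ⟨W, hW1, hW2⟩ := hGLU DD (kz n1)
    (fun i n => if n = kz n1 i then 1 else (D i).1.v (n - kz n1 i - 1)) 1 hk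
  obtain ⟨V, hV⟩ : ∃ V : ℕ → DD, V = fun k => if k = 2 then f else V' k := ⟨_, rfl⟩
  have hVa : V 0 = 1 := by
    rw [hV]
    exact hV'1 0 (by rw [hk0]; norm_num)
  have hVb : V 1 = 1 := by
    rw [hV]
    exact hV'1 1 (by rw [hk0]; norm_num)
  have hVc : V 2 = f := by rw [hV]; rfl
  have hVe : ∀ i j, j ≤ qn (n1 + 2 * i) → V (kz n1 i + j) = (D i).1.R j := by
    intro i j hj
    have h4 := hk3 i
    have h1 := hV'2 i (kz n1 i + j) (by omega) (by rw [hksucc]; omega)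
    have h2 : V (kz n1 i + j) = V' (kz n1 i + j) := by
      rw [hV]
      show (if kz n1 i + j = 2 then f else V' (kz n1 i + j)) = _
      rw [if_neg (by omega)]
    rw [h2, h1]
    show (D i).1.R (kz n1 i + j - kz n1 i) = _
    rw [Nat.add_sub_cancel_left]
  have hUa : ∀ i, U (kz n1 i) = 1 := by
    intro i
    rw [hU2 i (kz n1 i) le_rfl (by rw [hksucc]; omega)]
    show (if kz n1 i = kz n1 i then (1 : DD) else _) = 1
    rw [if_pos rfl]
  have hWa : ∀ i, W (kz n1 i) = 1 := by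
    intro i
    rw [hW2 i (kz n1 i) le_rfl (by rw [hksucc]; omega)]
    show (if kz n1 i = kz n1 i then (1 : DD) else _) = 1
    rw [if_pos rfl]
  have hUj : ∀ i j, j + 1 ≤ qn (n1 + 2 * i) → U (kz n1 i + (j + 1)) = (D i).1.u j := by
    intro i j hj
    rw [hU2 i (kz n1 i + (j + 1)) (by omega) (by rw [hksucc]; omega)]
    show (if kz n1 i + (j + 1) = kz n1 i then (1 : DD) else (D i).1.u (kz n1 i + (j + 1) - kz n1 i - 1)) = _
    rw [if_neg (by omega), show kz n1 i + (j + 1) - kz n1 i - 1 = j by omega]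
  have hWj : ∀ i j, j + 1 ≤ qn (n1 + 2 * i) → W (kz n1 i + (j + 1)) = (D i).1.v j := by
    intro i j hj
    rw [hW2 i (kz n1 i + (j + 1)) (by omega) (by rw [hksucc]; omega)]
    show (if kz n1 i + (j + 1) = kz n1 i then (1 : DD) else (D i).1.v (kz n1 i + (j + 1) - kz n1 i - 1)) = _
    rw [if_neg (by omega), show kz n1 i + (j + 1) - kz n1 i - 1 = j by omega]
  obtain ⟨hpl1, hpl2⟩ := hPLC (kz n1) (fun i => (D i).1.F) hk
  have hblk' : ∀ i k, kz n1 i ≤ k → k < kz n1 (i + 1) → ∃ j, j ≤ qn (n1 + 2 * i) ∧ k = kz n1 i + j := by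
    intro i k h1 h2
    rw [hksucc] at h2
    exact ⟨k - kz n1 i, by omega, by omega⟩
  refine ⟨V, U, W, fun i => (D i).1.F, fun i => (D i).1.XF, ?_, ?_, ?_, ?_, ?_⟩
  · -- Adm V
    refine hZAD n1 V ?_ ?_
    · intro k hk
      rcases (by omega : k = 0 ∨ k = 1) with rfl | rfl
      · exact hVa
      · exact hVb
    · intro i k h1 h2
      obtain ⟨j, hj, rfl⟩ := hblk' i k h1 h2
      rw [hVe i j hj]
      exact ((hP i).2.2.2.1 j).1
  · -- Adm U
    refine hZAD n1 U (fun k hk => hU1 k (by rw [hk0]; omega)) ?_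
    intro i k h1 h2
    obtain ⟨j, hj, rfl⟩ := hblk' i k h1 h2
    rcases j with _ | j
    · rw [add_zero, hUa]
      exact ZCH_sz_one _ (by positivity)
    · rw [hUj i j hj]
      exact ((hP i).2.2.2.1 j).2.1
  · -- Adm W
    refine hZAD n1 W (fun k hk => hW1 k (by rw [hk0]; omega)) ?_
    intro i k h1 h2
    obtain ⟨j, hj, rfl⟩ := hblk' i k h1 h2
    rcases j with _ | j
    · rw [add_zero, hWa]
      exact ZCH_sz_one _ (by positivity)
    · rw [hWj i j hj]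
      exact ((hP i).2.2.2.1 j).2.2
  · -- F
    intro i
    exact ⟨(hP i).2.2.2.2.2.1, (hP i).2.2.2.2.2.2.1⟩
  · -- the identity
    funext k
    show V k = (U k * W k * (U k)⁻¹ * (W k)⁻¹) * V (k - 1) *
      ((Pi.mulSingle 2 f : ℕ → DD) k * place (kz n1) (fun i => (D i).1.F) k)
    by_cases h4 : k < 3
    · have e1 : place (kz n1) (fun i => (D i).1.F) k = 1 := by
        apply hpl2
        intro i
        have := hk3 i
        omega
      rw [e1, hU1 k (by rw [hk0]; exact h4), hW1 k (by rw [hk0]; exact h4)]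
      rcases (by omega : k = 0 ∨ k = 1 ∨ k = 2) with rfl | rfl | rfl
      · simp [Pi.mulSingle, Function.update, hVa]
      · simp [Pi.mulSingle, Function.update, hVa, hVb]
      · simp [Pi.mulSingle, Function.update, hVb, hVc]
    · obtain ⟨i, j, hj, rfl⟩ := ZCH_block n1 k (by omega)
      have h4' := hk3 i
      have e2 : (Pi.mulSingle 2 f : ℕ → DD) (kz n1 i + j) = 1 :=
        Pi.mulSingle_eq_of_ne (by omega) _
      rw [e2, hVe i j hj]
      rcases j with _ | j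
      · -- beginning of a block
        rw [add_zero, hUa, hWa, hpl1 i]
        have hprev : V (kz n1 i - 1) = (D i).1.f := by
          rcases i with _ | i
          · rw [hDf0, hk0]
            exact hVc
          · have h5 : kz n1 (i + 1) - 1 = kz n1 i + qn (n1 + 2 * i) := by
              rw [hksucc]
              omega
            rw [h5, hVe i _ le_rfl, hDf]
        rw [hprev, (hP i).2.1]
        group
      · have e1 : place (kz n1) (fun i => (D i).1.F) (kz n1 i + (j + 1)) = 1 := by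
          apply hpl2
          intro i'
          rcases lt_or_ge i i' with h6 | h6
          · have h7 : kz n1 (i + 1) ≤ kz n1 i' := hk.monotone h6
            rw [hksucc i] at h7
            omega
          · have h7 : kz n1 i' ≤ kz n1 i := hk.monotone h6
            omega
        have h5 : kz n1 i + (j + 1) - 1 = kz n1 i + j := by omega
        rw [e1, hUj i j hj, hWj i j hj, h5, hVe i j (by omega), (hP i).2.2.1 j, commutatorElement_def]
        group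

end M5Z
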